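import Pool.Agent.H31.PC.Targets

/-!
# Module CT of pc_modules: the mean value of the content
-/

set_option autoImplicit false

namespace Pool.Agent.H54.PC

open Finset Pool.Agent.H31.PC

theorem card_content (d R c : ℕ) (hc : 1 ≤ c) :
    #{φ ∈ PB d R | φ ≠ 0 ∧ φ.content.natAbs = c} ≤ (2 * (R / c) + 1) ^ (d + 1) := by
  rw [← card_PB]
  refine le_trans (Finset.card_le_card (t := (PB d (R / c)).image
    fun ψ => Polynomial.C (c : ℤ) * ψ) ?_) Finset.card_image_le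
  intro φ hφ
  rw [Finset.mem_filter, mem_PB] at hφ
  obtain ⟨⟨h1, h2⟩, h3, h4⟩ := hφ
  rw [Finset.mem_image]
  have h5 : φ.content = (c : ℤ) := by
    have h6 : 0 ≤ φ.content := Int.nonneg_of_normalize_eq_self φ.normalize_content
    rw [← h4]
    exact (Int.natAbs_of_nonneg h6).symm
  refine ⟨φ.primPart, ?_, ?_⟩
  · rw [mem_PB, Polynomial.natDegree_primPart]
    refine ⟨h1, fun j => ?_⟩
    have h8 := h2 j
    have h9 : φ.coeff j = (c : ℤ) * φ.primPart.coeff j := by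
      conv_lhs => rw [φ.eq_C_content_mul_primPart, h5, Polynomial.coeff_C_mul]
    rw [h9, abs_mul, Nat.abs_cast] at h8
    have h10 : (φ.primPart.coeff j).natAbs ≤ R / c := by
      rw [Nat.le_div_iff_mul_le (by omega)]
      zify
      rw [mul_comm]
      exact h8
    rw [Int.abs_eq_natAbs]
    exact_mod_cast h10
  · rw [← h5]
    exact φ.eq_C_content_mul_primPart.symm

theorem pf_CT : T_CT := by
  intro d hd
  refine ⟨2 * 3 ^ (d + 1), fun R hR => ?_⟩
  have h1 : ∑ φ ∈ PB d R with φ ≠ 0, φ.content.natAbs ≤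
      ∑ c ∈ Ioo 0 (R + 1), c * (2 * (R / c) + 1) ^ (d + 1) := by
    have hmaps : ∀ φ ∈ (PB d R).filter (fun φ => φ ≠ 0),
        φ.content.natAbs ∈ Ioo 0 (R + 1) := by
      intro φ hφ
      rw [Finset.mem_filter, mem_PB] at hφ
      obtain ⟨⟨h1, h2⟩, h3⟩ := hφ
      have h4 : φ.content ≠ 0 := by
        rw [Ne, Polynomial.content_eq_zero_iff]
        exact h3
      have h5 : φ.content ∣ φ.coeff φ.natDegree := Polynomial.content_dvd_coeff _
      have h6 : φ.coeff φ.natDegree ≠ 0 := by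
        rw [Polynomial.coeff_natDegree, Ne, Polynomial.leadingCoeff_eq_zero]
        exact h3
      have h7 := Int.le_of_dvd (abs_pos.2 h6) ((dvd_abs _ _).2 ((abs_dvd _ _).2 h5))
      have h8 := h2 φ.natDegree
      have h9 : |φ.content| ≤ (R : ℤ) := le_trans h7 h8
      rw [Int.abs_eq_natAbs] at h9
      rw [Finset.mem_Ioo]
      constructor
      · exact Int.natAbs_pos.2 h4
      · omega
    rw [← Finset.sum_fiberwise_of_maps_to hmaps]
    refine Finset.sum_le_sum fun c hc => ?_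
    rw [Finset.mem_Ioo] at hc
    have h2 : ∀ φ ∈ ((PB d R).filter (fun φ => φ ≠ 0)).filter
        (fun φ => φ.content.natAbs = c), φ.content.natAbs = c := by
      intro φ hφ
      exact (Finset.mem_filter.1 hφ).2
    rw [Finset.sum_congr rfl h2, Finset.sum_const, smul_eq_mul, mul_comm]
    refine Nat.mul_le_mul_left _ ?_
    rw [Finset.filter_filter]
    exact card_content d R c (by omega)
  refine le_trans h1 ?_
  have h2 : ∀ c ∈ Ioo 0 (R + 1), ((c * (2 * (R / c) + 1) ^ (d + 1) : ℕ) : ℝ) ≤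
      (3 * R : ℝ) ^ (d + 1) * ((c : ℝ) ^ 2)⁻¹ := by
    intro c hc
    rw [Finset.mem_Ioo] at hc
    have hc0 : (0 : ℝ) < c := by exact_mod_cast hc.1
    have hc1 : (1 : ℝ) ≤ c := by exact_mod_cast hc.1
    have h3 : 1 ≤ R / c := by
      rw [Nat.le_div_iff_mul_le hc.1]
      omega
    have h4 : ((R / c : ℕ) : ℝ) ≤ (R : ℝ) / c := Nat.cast_div_le
    have h5 : (2 * ((R / c : ℕ) : ℝ) + 1) ≤ 3 * R / c := by
      have h6 : (1 : ℝ) ≤ ((R / c : ℕ) : ℝ) := by exact_mod_cast h3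
      calc (2 * ((R / c : ℕ) : ℝ) + 1) ≤ 3 * ((R / c : ℕ) : ℝ) := by linarith
        _ ≤ 3 * ((R : ℝ) / c) := by linarith
        _ = 3 * R / c := by ring
    push_cast
    calc (c : ℝ) * (2 * ((R / c : ℕ) : ℝ) + 1) ^ (d + 1)
        ≤ (c : ℝ) * (3 * R / c) ^ (d + 1) := by gcongr
      _ = (3 * R : ℝ) ^ (d + 1) * ((c : ℝ) ^ d)⁻¹ := by
        rw [div_pow, pow_succ (c : ℝ) d]
        field_simp
      _ ≤ (3 * R : ℝ) ^ (d + 1) * ((c : ℝ) ^ 2)⁻¹ := by
        gcongr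
  have h3 : ((∑ c ∈ Ioo 0 (R + 1), c * (2 * (R / c) + 1) ^ (d + 1) : ℕ) : ℝ) ≤
      ((2 * 3 ^ (d + 1) * R ^ (d + 1) : ℕ) : ℝ) := by
    rw [Nat.cast_sum]
    refine le_trans (Finset.sum_le_sum h2) ?_
    rw [← Finset.mul_sum]
    have h4 := sum_Ioo_inv_sq_le (α := ℝ) 0 (R + 1)
    have h5 : ∑ i ∈ Ioo 0 (R + 1), ((i : ℝ) ^ 2)⁻¹ ≤ 2 := by
      refine le_trans h4 ?_
      norm_num
    calc (3 * R : ℝ) ^ (d + 1) * ∑ i ∈ Ioo 0 (R + 1), ((i : ℝ) ^ 2)⁻¹
        ≤ (3 * R : ℝ) ^ (d + 1) * 2 := by gcongr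
      _ = ((2 * 3 ^ (d + 1) * R ^ (d + 1) : ℕ) : ℝ) := by
        push_cast
        ring
  exact_mod_cast h3

end Pool.Agent.H54.PC
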